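import Pool.Agent.H323R2.C3.Red

/-!
Lower bound `c (log N)^3 / (log log N)^5` for the number of failures of a linear relation between
consecutive digits (in particular for the number of digit changes) of a real cubic irrational
number which is not of the form rational + cube root of a rational, in every base; the same bound
for the number of nonzero digits of every expansion with bounded integer digits.
-/

set_option autoImplicit false

namespace Pool.Agent.Results.MP_5b6025_nt.CubicExponentThree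

open Finset

/-- the `k`-th digit after the point of `x` in base `b` -/
noncomputable def digit (b : ℕ) (x : ℝ) (k : ℕ) : ℤ := ⌊(b : ℝ) ^ k * x⌋ % b

/-- Let `x` be a real root of the integer polynomial `A X^3 + B X^2 + C X + E`, `A ≠ 0`, which has no
rational root, and assume `B^2 ≠ 3 A C` (that is, `x` is not `r + ∛s` with `r, s` rational). Let
`b ≥ 2`. Every relation `q_0 a_k + … + q_m a_{k+m} = e` with `q_0 + q_1 b + … + q_m b^m ≠ 0` between
consecutive base `b` digits of `x` fails at least `c (log N)^3 / (log log N)^5` times up to `N`, and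
every expansion `x = ∑ g_k b^{-k}` with bounded integers `g_k` has at least that many nonzero `g_k`
with `1 ≤ k ≤ N`. -/
theorem result (x : ℝ) (A B C E : ℤ) (hA : A ≠ 0)
    (hx : (A : ℝ) * x ^ 3 + B * x ^ 2 + C * x + E = 0)
    (hirr : ∀ z : ℚ, (A : ℚ) * z ^ 3 + B * z ^ 2 + C * z + E ≠ 0)
    (hne : B ^ 2 ≠ 3 * A * C) (b : ℕ) (hb : 2 ≤ b) :
    (∀ (m : ℕ) (q : ℕ → ℤ) (e : ℤ), ∑ j ∈ range (m + 1), q j * (b : ℤ) ^ j ≠ 0 →
      ∃ c : ℝ, 0 < c ∧ ∃ N0 : ℕ, ∀ N : ℕ, N0 ≤ N →
        c * (Real.log N) ^ 3 / (Real.log (Real.log N)) ^ 5 ≤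
          (((Icc 1 N).filter (fun k : ℕ =>
            ∑ j ∈ range (m + 1), q j * digit b x (k + j) ≠ e)).card : ℝ)) ∧
    (∀ (g : ℕ → ℤ) (M : ℤ), (∀ k, |g k| ≤ M) →
      HasSum (fun k : ℕ => (g k : ℝ) / (b : ℝ) ^ k) x →
      ∃ c : ℝ, 0 < c ∧ ∃ N0 : ℕ, ∀ N : ℕ, N0 ≤ N →
        c * (Real.log N) ^ 3 / (Real.log (Real.log N)) ^ 5 ≤
          (((Icc 1 N).filter (fun k => g k ≠ 0)).card : ℝ)) :=
  ⟨fun m q e h => Pool.Agent.H323R2.C3.digit_relations x A B C E hA hx hirr hne b hb m q e h,
    fun g M hg hs => Pool.Agent.H323R2.C3.expansions x A B C E hA hx hirr hne b hb g M hg hs⟩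

end Pool.Agent.Results.MP_5b6025_nt.CubicExponentThree
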