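import Pool.Agent.H44.NB.LC
import Pool.Agent.H44.NB.CH1
import Pool.Agent.H44.NB.CH2
import Pool.Agent.H44.NB.DG
import Pool.Agent.H44.NB.MC

/-!
# Almost all algebraic numbers have equidistributed digits up to their height

The four lemmas CH1, CH2, DG, MC are by helpers 704, 340, 514 and 135.
-/

set_option autoImplicit false

namespace Pool.Agent.Results.MP_5b6025_nt.DigitsUpToHeight

open Finset Polynomial Pool.Agent.Results.MP_c307ca_nt.AlmostAllToHeight Pool.Agent.H44.NB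

theorem CH : St_CH := by
  intro b hb ε hε
  obtain ⟨ρ1, h1, h1', H1⟩ := CH1 b hb ε hε
  obtain ⟨ρ2, h2, h2', H2⟩ := CH2 b hb ε hε
  refine ⟨max ρ1 ρ2, lt_max_of_lt_left h1, max_lt h1' h2', fun N a ha => ?_⟩
  have hsub : (range (b ^ N)).filter (fun m => ε * N < |(cnt b a N m : ℝ) - N / b|) ⊆
      ((range (b ^ N)).filter (fun m => ε * N < (cnt b a N m : ℝ) - N / b)) ∪
      ((range (b ^ N)).filter (fun m => ε * N < N / b - (cnt b a N m : ℝ))) := by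
    intro m hm
    rw [mem_filter] at hm
    rw [mem_union, mem_filter, mem_filter]
    rcases lt_abs.mp hm.2 with h | h
    · left; exact ⟨hm.1, h⟩
    · right; exact ⟨hm.1, by linarith⟩
  have hb0 : (0 : ℝ) ≤ (b : ℝ) ^ N := by positivity
  have e1 : ρ1 ^ N ≤ (max ρ1 ρ2) ^ N := pow_le_pow_left₀ h1.le (le_max_left _ _) N
  have e2 : ρ2 ^ N ≤ (max ρ1 ρ2) ^ N := pow_le_pow_left₀ h2.le (le_max_right _ _) N
  have e3 := card_le_card hsub
  have e4 := e3.trans (card_union_le _ _)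
  have e5 : (((range (b ^ N)).filter (fun m => ε * N < |(cnt b a N m : ℝ) - N / b|)).card : ℝ) ≤
      (((range (b ^ N)).filter (fun m => ε * N < (cnt b a N m : ℝ) - N / b)).card : ℝ) +
      (((range (b ^ N)).filter (fun m => ε * N < N / b - (cnt b a N m : ℝ))).card : ℝ) := by
    exact_mod_cast e4
  have e6 := H1 N a ha
  have e7 := H2 N a ha
  have e8 := mul_le_mul_of_nonneg_right e1 hb0
  have e9 := mul_le_mul_of_nonneg_right e2 hb0
  linarith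

theorem card_biUnion_real {ι α : Type*} [DecidableEq α] (s : Finset ι) (f : ι → Finset α)
    (g : ι → ℝ) (h : ∀ i ∈ s, ((f i).card : ℝ) ≤ g i) :
    ((s.biUnion f).card : ℝ) ≤ ∑ i ∈ s, g i := by
  have h1 : ((s.biUnion f).card : ℝ) ≤ ((∑ i ∈ s, (f i).card : ℕ) : ℝ) :=
    Nat.cast_le.mpr card_biUnion_le
  refine h1.trans ?_
  push_cast
  exact Finset.sum_le_sum h

open Classical in
theorem main_digits (d b : ℕ) (hb : 2 ≤ b) (ε : ℝ) (ρ : ℝ) (hρ0 : 0 < ρ) (hρ1 : ρ < 1)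
    (hρ : ∀ (N a : ℕ), a < b →
      (((range (b ^ N)).filter (fun m => ε * N < |(cnt b a N m : ℝ) - N / b|)).card : ℝ) ≤
      2 * ρ ^ N * b ^ N) (T : ℕ) (hT : 2 ≤ T) (n₀ : ℕ) (H : ℕ) (hH : 1 ≤ H)
    (BB : Finset (Fin (d + 1) → ℤ))
    (hB : ∀ v ∈ BB, (∀ i, |v i| ≤ (H : ℤ)) ∧ v (Fin.last d) ≠ 0 ∧
      (∀ (p : ℤ) (q : ℤ), 0 < q → ev v ((p : ℝ) / q) ≠ 0) ∧
      ∃ ξ : ℝ, ev v ξ = 0 ∧ ∃ N : ℕ, n₀ ≤ N ∧ b ^ N ≤ H ∧ ∃ a : ℕ, a < b ∧
        ε * N < |(((Icc 1 N).filter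
          (fun n : ℕ => ⌊ξ * (b : ℝ) ^ n⌋ % (b : ℤ) = (a : ℤ))).card : ℝ) - N / b|) :
    (BB.card : ℝ) ≤ (H : ℝ) ^ (d + 1) * (2 * 3 ^ d / (T - 1) +
      b * ((2 * T + 3) * 2 * (2 * KK d T * 4 ^ d)) * (ρ ^ n₀ / (1 - ρ))) := by
  have hH1 : (1 : ℝ) ≤ H := by exact_mod_cast hH
  have hbR : (1 : ℝ) ≤ b := by
    have : 1 ≤ b := by omega
    exact_mod_cast this
  set Bad : ℕ → ℕ → Finset ℕ := fun N a =>
    (range (b ^ N)).filter (fun m => ε * N < |(cnt b a N m : ℝ) - N / b|) with hBad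
  set MS : ℕ → ℕ → Finset ℤ := fun N a =>
    (Icc (-(((T + 1) * b ^ N : ℕ) : ℤ)) (((T + 1) * b ^ N : ℕ) : ℤ)).filter
      (fun m : ℤ => (m % ((b ^ N : ℕ) : ℤ)).toNat ∈ Bad N a) with hMS
  set CC : ℕ → ℤ → Finset (Fin (d + 1) → ℤ) := fun N m =>
    (box (d + 1) (H : ℤ)).filter (fun v => (∀ (p : ℤ) (q : ℤ), 0 < q → ev v ((p : ℝ) / q) ≠ 0) ∧
      ∃ ξ : ℝ, ev v ξ = 0 ∧ |ξ| ≤ T ∧ |ξ - (m : ℝ) / ((b ^ N : ℕ) : ℝ)| ≤ 1 / (b : ℝ) ^ N)
    with hCC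
  set NN : Finset ℕ := (Ico n₀ (H + 1)).filter (fun N => b ^ N ≤ H) with hNN
  set MM : Finset (Fin (d + 1) → ℤ) := NN.biUnion fun N => (range b).biUnion fun a =>
    (MS N a).biUnion fun m => CC N m with hMM
  have hsub : BB ⊆ LR d T H ∪ MM := by
    intro v hv
    obtain ⟨h1, h2, h3, ξ, h4, N, hN0, hNH, a, hab, hdev⟩ := hB v hv
    rw [Finset.mem_union]
    by_cases hξ : (T : ℝ) < |ξ|
    · left
      unfold LR
      rw [Finset.mem_filter]
      exact ⟨mem_box h1, h2, lead_small d T H hT v h1 ξ h4 hξ⟩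
    · right
      rw [not_lt] at hξ
      have hbN : (0 : ℝ) < (b : ℝ) ^ N := by positivity
      have hbN1 : (1 : ℝ) ≤ (b : ℝ) ^ N := one_le_pow₀ hbR
      have hbNz : (0 : ℤ) < (b : ℤ) ^ N := by
        have : 0 < b ^ N := Nat.pow_pos (by omega)
        exact_mod_cast this
      have hNltH : N < b ^ N := Nat.lt_pow_self (by omega)
      rw [hMM, Finset.mem_biUnion]
      refine ⟨N, ?_, ?_⟩
      · rw [hNN, Finset.mem_filter, Finset.mem_Ico]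
        exact ⟨⟨hN0, by omega⟩, hNH⟩
      rw [Finset.mem_biUnion]
      refine ⟨a, Finset.mem_range.mpr hab, ?_⟩
      rw [Finset.mem_biUnion]
      have hf1 := Int.floor_le (ξ * (b : ℝ) ^ N)
      have hf2 := Int.lt_floor_add_one (ξ * (b : ℝ) ^ N)
      refine ⟨⌊ξ * (b : ℝ) ^ N⌋, ?_, ?_⟩
      · simp only [hMS]
        rw [Finset.mem_filter, mem_Icc]
        obtain ⟨g1, g2⟩ := abs_le.mp hξ
        refine ⟨⟨?_, ?_⟩, ?_⟩
        · have : (-(((T + 1) * b ^ N : ℕ) : ℝ)) < (⌊ξ * (b : ℝ) ^ N⌋ : ℝ) + 1 := by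
            push_cast
            nlinarith
          have h5 : -(((T + 1) * b ^ N : ℕ) : ℤ) < ⌊ξ * (b : ℝ) ^ N⌋ + 1 := by exact_mod_cast this
          omega
        · have : (⌊ξ * (b : ℝ) ^ N⌋ : ℝ) ≤ (((T + 1) * b ^ N : ℕ) : ℝ) := by
            push_cast
            nlinarith
          exact_mod_cast this
        · simp only [hBad]
          rw [Finset.mem_filter, Finset.mem_range]
          have h6 := DG b hb ξ N a hab
          have h7 : (((b ^ N : ℕ) : ℤ)) = (b : ℤ) ^ N := by push_cast; rfl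
          rw [h7]
          refine ⟨?_, ?_⟩
          · have h8 := Int.emod_lt_of_pos ⌊ξ * (b : ℝ) ^ N⌋ hbNz
            have h9 := Int.emod_nonneg ⌊ξ * (b : ℝ) ^ N⌋ hbNz.ne'
            have h10 : ((⌊ξ * (b : ℝ) ^ N⌋ % (b : ℤ) ^ N).toNat : ℤ) < ((b ^ N : ℕ) : ℤ) := by
              rw [Int.toNat_of_nonneg h9, h7]
              exact h8
            exact_mod_cast h10
          · rw [← h6]
            exact hdev
      · simp only [hCC]
        rw [Finset.mem_filter]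
        refine ⟨mem_box h1, h3, ξ, h4, hξ, ?_⟩
        push_cast
        have h11 : ξ - (⌊ξ * (b : ℝ) ^ N⌋ : ℝ) / (b : ℝ) ^ N =
            (ξ * (b : ℝ) ^ N - ⌊ξ * (b : ℝ) ^ N⌋) / (b : ℝ) ^ N := by
          field_simp
        rw [h11, abs_div, abs_of_pos hbN, div_le_div_iff_of_pos_right hbN, abs_le]
        constructor <;> linarith
  have hCCcard : ∀ N ∈ NN, ∀ m : ℤ, ((CC N m).card : ℝ) ≤
      (H : ℝ) ^ (d + 1) * (2 * KK d T * 4 ^ d) * (1 / (b : ℝ) ^ N) := by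
    intro N hN m
    rw [hNN, Finset.mem_filter] at hN
    have hbN1 : (1 : ℝ) ≤ (b : ℝ) ^ N := one_le_pow₀ hbR
    have hbN : (0 : ℝ) < (b : ℝ) ^ N := by linarith
    refine LC' d T H hH m (b ^ N) (Nat.pow_pos (by omega)) hN.2 (1 / (b : ℝ) ^ N)
      (by positivity) ?_ (CC N m) ?_
    · rw [div_le_one hbN]
      exact hbN1
    · intro v hv
      simp only [hCC] at hv
      rw [Finset.mem_filter] at hv
      refine ⟨fun i => ?_, hv.2⟩
      have := (Fintype.mem_piFinset.mp hv.1) i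
      rw [mem_Icc] at this
      exact abs_le.mpr this
  have hMMcard : (MM.card : ℝ) ≤ ∑ N ∈ NN, ∑ a ∈ range b, ∑ m ∈ MS N a,
      (H : ℝ) ^ (d + 1) * (2 * KK d T * 4 ^ d) * (1 / (b : ℝ) ^ N) :=
    card_biUnion_real _ _ _ fun N hN => card_biUnion_real _ _ _ fun a _ =>
      card_biUnion_real _ _ _ fun m _ => hCCcard N hN m
  have hK0 := KK_nonneg d T
  have hstep : ∀ N ∈ NN, ∑ a ∈ range b, ∑ m ∈ MS N a,
      (H : ℝ) ^ (d + 1) * (2 * KK d T * 4 ^ d) * (1 / (b : ℝ) ^ N) ≤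
      (H : ℝ) ^ (d + 1) * (b * ((2 * T + 3) * 2 * (2 * KK d T * 4 ^ d))) * ρ ^ N := by
    intro N _
    have hbN : (0 : ℝ) < (b : ℝ) ^ N := by positivity
    have hin : ∀ a ∈ range b, ∑ m ∈ MS N a,
        (H : ℝ) ^ (d + 1) * (2 * KK d T * 4 ^ d) * (1 / (b : ℝ) ^ N) ≤
        (H : ℝ) ^ (d + 1) * ((2 * T + 3) * 2 * (2 * KK d T * 4 ^ d)) * ρ ^ N := by
      intro a ha
      have h1 := MC (b ^ N) T (Nat.pow_pos (by omega)) (Bad N a)
      have h2 := hρ N a (Finset.mem_range.mp ha)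
      have h3 : ((MS N a).card : ℝ) ≤ (2 * T + 3) * (2 * ρ ^ N * b ^ N) := by
        have h4 : ((MS N a).card : ℝ) ≤ ((2 * T + 3 : ℕ) : ℝ) * ((Bad N a).card : ℝ) := by
          exact_mod_cast h1
        push_cast at h4
        exact h4.trans (mul_le_mul_of_nonneg_left h2 (by positivity))
      rw [Finset.sum_const, nsmul_eq_mul]
      calc ((MS N a).card : ℝ) *
            ((H : ℝ) ^ (d + 1) * (2 * KK d T * 4 ^ d) * (1 / (b : ℝ) ^ N))
          ≤ ((2 * T + 3) * (2 * ρ ^ N * b ^ N)) *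
            ((H : ℝ) ^ (d + 1) * (2 * KK d T * 4 ^ d) * (1 / (b : ℝ) ^ N)) :=
            mul_le_mul_of_nonneg_right h3 (by positivity)
        _ = (H : ℝ) ^ (d + 1) * ((2 * T + 3) * 2 * (2 * KK d T * 4 ^ d)) * ρ ^ N := by
            field_simp
    refine (Finset.sum_le_sum hin).trans ?_
    rw [Finset.sum_const, nsmul_eq_mul, Finset.card_range]
    apply le_of_eq
    ring
  have hgeo : ∑ N ∈ NN, ρ ^ N ≤ ρ ^ n₀ / (1 - ρ) :=
    (Finset.sum_le_sum_of_subset_of_nonneg (Finset.filter_subset _ _)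
      (fun i _ _ => by positivity)).trans (geom_sum_Ico_le_of_lt_one hρ0.le hρ1)
  have hMM2 : (MM.card : ℝ) ≤ (H : ℝ) ^ (d + 1) *
      (b * ((2 * T + 3) * 2 * (2 * KK d T * 4 ^ d)) * (ρ ^ n₀ / (1 - ρ))) := by
    refine hMMcard.trans ((Finset.sum_le_sum hstep).trans ?_)
    rw [← Finset.mul_sum]
    calc (H : ℝ) ^ (d + 1) * (b * ((2 * T + 3) * 2 * (2 * KK d T * 4 ^ d))) * ∑ N ∈ NN, ρ ^ N
        ≤ (H : ℝ) ^ (d + 1) * (b * ((2 * T + 3) * 2 * (2 * KK d T * 4 ^ d))) *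
          (ρ ^ n₀ / (1 - ρ)) := mul_le_mul_of_nonneg_left hgeo (by positivity)
      _ = _ := by ring
  have h1 : (BB.card : ℝ) ≤ ((LR d T H).card : ℝ) + (MM.card : ℝ) := by
    have := (Finset.card_le_card hsub).trans (Finset.card_union_le _ _)
    exact_mod_cast this
  have h2 := card_LR d T H hT hH
  calc (BB.card : ℝ) ≤ ((LR d T H).card : ℝ) + (MM.card : ℝ) := h1
    _ ≤ (H : ℝ) ^ (d + 1) * (2 * 3 ^ d / (T - 1)) + (H : ℝ) ^ (d + 1) *
      (b * ((2 * T + 3) * 2 * (2 * KK d T * 4 ^ d)) * (ρ ^ n₀ / (1 - ρ))) := add_le_add h2 hMM2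
    _ = _ := by ring

/-- **Almost all real algebraic numbers have equidistributed digits up to their height.** -/
theorem result (d : ℕ) (hd : 2 ≤ d) (b : ℕ) (hb : 2 ≤ b) (ε η : ℝ) (hε : 0 < ε) (hη : 0 < η) :
    ∃ n₀ : ℕ, ∀ H : ℕ, 1 ≤ H →
      {ξ : ℝ | (∃ P : Polynomial ℤ, P.natDegree = d ∧ (∀ i, |P.coeff i| ≤ (H : ℤ)) ∧
          Irreducible (P.map (Int.castRingHom ℚ)) ∧ Polynomial.aeval ξ P = 0) ∧
        ∃ N : ℕ, n₀ ≤ N ∧ b ^ N ≤ H ∧ ∃ a : ℕ, a < b ∧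
          ε * N < |(((Finset.Icc 1 N).filter
            (fun n : ℕ => ⌊ξ * (b : ℝ) ^ n⌋ % (b : ℤ) = (a : ℤ))).card : ℝ) - N / b|}.Finite ∧
      ({ξ : ℝ | (∃ P : Polynomial ℤ, P.natDegree = d ∧ (∀ i, |P.coeff i| ≤ (H : ℤ)) ∧
          Irreducible (P.map (Int.castRingHom ℚ)) ∧ Polynomial.aeval ξ P = 0) ∧
        ∃ N : ℕ, n₀ ≤ N ∧ b ^ N ≤ H ∧ ∃ a : ℕ, a < b ∧
          ε * N < |(((Finset.Icc 1 N).filter
            (fun n : ℕ => ⌊ξ * (b : ℝ) ^ n⌋ % (b : ℤ) = (a : ℤ))).card : ℝ) - N / b|}.ncard : ℝ) ≤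
        η * (H : ℝ) ^ (d + 1) := by
  classical
  obtain ⟨ρ, hρ0, hρ1, hρ⟩ := CH b hb ε hε
  have hd0 : (0 : ℝ) < d := by
    have : 0 < d := by omega
    exact_mod_cast this
  set T : ℕ := ⌈4 * (d : ℝ) * 3 ^ d / η⌉₊ + 2 with hTdef
  have hT : 2 ≤ T := by omega
  have hT1 : 4 * (d : ℝ) * 3 ^ d / η ≤ (T : ℝ) - 1 := by
    have h1 := Nat.le_ceil (4 * (d : ℝ) * 3 ^ d / η)
    rw [hTdef]
    push_cast
    linarith
  have hT2 : (2 : ℝ) ≤ T := by exact_mod_cast hT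
  have hT3 : (0 : ℝ) < (T : ℝ) - 1 := by linarith
  have hTη : 2 * 3 ^ d / ((T : ℝ) - 1) ≤ η / (2 * d) := by
    rw [div_le_iff₀ hη] at hT1
    rw [div_le_div_iff₀ hT3 (by positivity)]
    nlinarith
  have hK0 := KK_nonneg d T
  set Z : ℝ := b * ((2 * T + 3) * 2 * (2 * KK d T * 4 ^ d)) with hZ
  have hZ0 : 0 ≤ Z := by rw [hZ]; positivity
  have h1ρ : 0 < 1 - ρ := by linarith
  obtain ⟨n₀, hn₀⟩ := exists_pow_lt_of_lt_one
    (show 0 < η * (1 - ρ) / (2 * d * (Z + 1)) by positivity) hρ1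
  have hcZ : Z * (ρ ^ n₀ / (1 - ρ)) ≤ η / (2 * d) := by
    calc Z * (ρ ^ n₀ / (1 - ρ)) ≤ (Z + 1) * ((η * (1 - ρ) / (2 * d * (Z + 1))) / (1 - ρ)) := by
          refine mul_le_mul (by linarith) ?_ (by positivity) (by positivity)
          exact div_le_div_of_nonneg_right hn₀.le h1ρ.le
      _ = η / (2 * d) := by
          field_simp
  refine ⟨n₀, fun H hH => ?_⟩
  set S : Set ℝ := {ξ : ℝ | (∃ P : Polynomial ℤ, P.natDegree = d ∧
      (∀ i, |P.coeff i| ≤ (H : ℤ)) ∧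
          Irreducible (P.map (Int.castRingHom ℚ)) ∧ Polynomial.aeval ξ P = 0) ∧
        ∃ N : ℕ, n₀ ≤ N ∧ b ^ N ≤ H ∧ ∃ a : ℕ, a < b ∧
          ε * N < |(((Finset.Icc 1 N).filter
            (fun n : ℕ => ⌊ξ * (b : ℝ) ^ n⌋ % (b : ℤ) = (a : ℤ))).card : ℝ) - N / b|} with hS
  set BB : Finset (Fin (d + 1) → ℤ) := (box (d + 1) (H : ℤ)).filter (fun v =>
    ∃ P : Polynomial ℤ, (fun i : Fin (d + 1) => P.coeff i) = v ∧ P.natDegree = d ∧
      (∀ i, |P.coeff i| ≤ (H : ℤ)) ∧ Irreducible (P.map (Int.castRingHom ℚ)) ∧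
      ∃ ξ : ℝ, Polynomial.aeval ξ P = 0 ∧ ∃ N : ℕ, n₀ ≤ N ∧ b ^ N ≤ H ∧ ∃ a : ℕ, a < b ∧
          ε * N < |(((Finset.Icc 1 N).filter
            (fun n : ℕ => ⌊ξ * (b : ℝ) ^ n⌋ % (b : ℤ) = (a : ℤ))).card : ℝ) - N / b|) with hBB
  have hcount := main_digits d b hb ε ρ hρ0 hρ1 hρ T hT n₀ H hH BB (by
    intro v hv
    rw [hBB, Finset.mem_filter] at hv
    obtain ⟨_, P, hPa, hPd, hPH, hPirr, ξ, hξ, hdig⟩ := hv
    subst hPa
    refine ⟨fun i => hPH i, ?_, ?_, ξ, ?_, hdig⟩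
    · have h1 : P ≠ 0 := by
        intro h0
        rw [h0, Polynomial.natDegree_zero] at hPd
        omega
      have h2 : P.coeff d ≠ 0 := by
        rw [← hPd]
        exact Polynomial.leadingCoeff_ne_zero.mpr h1
      simpa using h2
    · intro p' q' _
      rw [ev_eq_aeval d P hPd]
      exact no_rat_root d hd P hPd hPirr p' q'
    · rw [ev_eq_aeval d P hPd]
      exact hξ)
  set U : Finset ℝ := BB.biUnion (fun a => ((polZ a).map (Int.castRingHom ℝ)).roots.toFinset)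
    with hU
  have hSU : S ⊆ (U : Set ℝ) := by
    rintro ξ ⟨⟨P, hPd, hPH, hPirr, hξ⟩, hdig⟩
    rw [hU, Finset.mem_coe, Finset.mem_biUnion]
    refine ⟨fun i : Fin (d + 1) => P.coeff i, ?_, ?_⟩
    · rw [hBB, Finset.mem_filter]
      exact ⟨mem_box fun i => hPH i, P, rfl, hPd, hPH, hPirr, ξ, hξ, hdig⟩
    · rw [polZ_coeff d P hPd, Multiset.mem_toFinset, Polynomial.mem_roots', Polynomial.IsRoot,
        Polynomial.eval_map]
      refine ⟨?_, hξ⟩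
      rw [Polynomial.map_ne_zero_iff (RingHom.injective_int (Int.castRingHom ℝ))]
      intro h0
      rw [h0, Polynomial.natDegree_zero] at hPd
      omega
  have hUcard : U.card ≤ BB.card * d := by
    refine Finset.card_biUnion_le_card_mul _ _ _ fun a ha => ?_
    rw [hBB, Finset.mem_filter] at ha
    obtain ⟨_, P, hPa, hPd, _⟩ := ha
    rw [← hPa, polZ_coeff d P hPd]
    refine (Multiset.toFinset_card_le _).trans ((Polynomial.card_roots' _).trans ?_)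
    exact Polynomial.natDegree_map_le.trans hPd.le
  refine ⟨U.finite_toSet.subset hSU, ?_⟩
  have h1 : S.ncard ≤ U.card := by
    rw [← Set.ncard_coe_finset]
    exact Set.ncard_le_ncard hSU U.finite_toSet
  have h2 : (S.ncard : ℝ) ≤ (BB.card : ℝ) * d := by exact_mod_cast h1.trans hUcard
  refine h2.trans ?_
  have hHp : (0 : ℝ) ≤ (H : ℝ) ^ (d + 1) := by positivity
  calc (BB.card : ℝ) * d ≤ ((H : ℝ) ^ (d + 1) * (2 * 3 ^ d / (T - 1) +
      Z * (ρ ^ n₀ / (1 - ρ)))) * d :=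
        mul_le_mul_of_nonneg_right hcount hd0.le
    _ ≤ ((H : ℝ) ^ (d + 1) * (η / (2 * d) + η / (2 * d))) * d := by
        refine mul_le_mul_of_nonneg_right ?_ hd0.le
        exact mul_le_mul_of_nonneg_left (add_le_add hTη hcZ) hHp
    _ = η * (H : ℝ) ^ (d + 1) := by
        field_simp
        ring

end Pool.Agent.Results.MP_5b6025_nt.DigitsUpToHeight
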